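import Mathlib
import Pool.Agent.Y348.EE.Main

set_option autoImplicit false

namespace Pool.Agent.Results.MP_3885fd_co.EffectivenessFails

open PowerSeries
open scoped Pointwise

/-- The real point with the given integer coordinates. -/
def toReal {d : ℕ} (x : Fin d → ℤ) : Fin d → ℝ := fun i => (x i : ℝ)

/-- The lattice polytope in `ℝ^d` that is the convex hull of the finite set `V` of lattice points
of `ℤ^d`. -/
def polytope {d : ℕ} (V : Finset (Fin d → ℤ)) : Set (Fin d → ℝ) :=
  convexHull ℝ (toReal '' (V : Set (Fin d → ℤ)))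

/-- The permutation character of `G` on the lattice points of `mP`, for `P` the polytope of `V`:
`chi ρ V m g` is the number of lattice points of `mP` fixed by `g`, where `G` acts linearly on
`ℤ^d` through `ρ`. -/
noncomputable def chi {G : Type} [Group G] {d : ℕ} (ρ : G →* GL (Fin d) ℤ)
    (V : Finset (Fin d → ℤ)) (m : ℕ) (g : G) : ℕ :=
  Nat.card {x : Fin d → ℤ // toReal x ∈ (m : ℝ) • polytope V ∧
    (ρ g : Matrix (Fin d) (Fin d) ℤ).mulVec x = x}

/-- The equivariant `H^*`-series evaluated at `g`: the power series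
`(∑ₘ χ_{mP}(g) tᵐ) (1 - t) det(I - t ρ(g))`. -/
noncomputable def Hstar {G : Type} [Group G] {d : ℕ} (ρ : G →* GL (Fin d) ℤ)
    (V : Finset (Fin d → ℤ)) (g : G) : PowerSeries ℂ :=
  PowerSeries.mk (fun m => (chi ρ V m g : ℂ)) * ((1 - X) *
    (1 - (X : PowerSeries ℂ) • (ρ g : Matrix (Fin d) (Fin d) ℤ).map
      (Int.castRingHom (PowerSeries ℂ))).det)

/-- The equivariant `H^*`-series is polynomial: only finitely many of the class functions
`H^*_i` are nonzero. -/
def IsPolynomial {G : Type} [Group G] {d : ℕ} (ρ : G →* GL (Fin d) ℤ)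
    (V : Finset (Fin d → ℤ)) : Prop :=
  {i : ℕ | ∃ g : G, coeff i (Hstar ρ V g) ≠ 0}.Finite

/-- The equivariant `H^*`-series is effective: every class function `H^*_i` is the character of a
finite-dimensional complex representation of `G`. -/
def IsEffective {G : Type} [Group G] {d : ℕ} (ρ : G →* GL (Fin d) ℤ)
    (V : Finset (Fin d → ℤ)) : Prop :=
  ∀ i : ℕ, ∃ W : FDRep ℂ G, ∀ g : G, W.character g = coeff i (Hstar ρ V g)

/-- There is an eight-dimensional lattice polytope, invariant under a linear action of the group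
of order two, whose equivariant `H^*`-series is a polynomial, namely `(1 + t)(1 + t³)` at the
identity and `(1 + t²)(1 - t + t²)` at the other element, but is not effective. -/
theorem result : ∃ (ρ : ℤˣ →* GL (Fin 8) ℤ) (V : Finset (Fin 8 → ℤ)),
    affineSpan ℝ (polytope V) = ⊤ ∧
    (∀ g : ℤˣ, ∀ p ∈ polytope V,
      ((ρ g : Matrix (Fin 8) (Fin 8) ℤ).map (Int.castRingHom ℝ)).mulVec p ∈ polytope V) ∧
    Hstar ρ V 1 = (1 + X) * (1 + X ^ 3) ∧
    Hstar ρ V (-1) = (1 + X ^ 2) * (1 - X + X ^ 2) ∧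
    IsPolynomial ρ V ∧ ¬ IsEffective ρ V :=
  ⟨Pool.Agent.Y348.EE.ρ, Pool.Agent.Y348.EE.V, Pool.Agent.Y348.EE.span_top,
    Pool.Agent.Y348.EE.invariant, Pool.Agent.Y348.EE.Hstar_one, Pool.Agent.Y348.EE.Hstar_neg,
    Pool.Agent.Y348.EE.isPolynomial, Pool.Agent.Y348.EE.not_isEffective⟩

end Pool.Agent.Results.MP_3885fd_co.EffectivenessFails
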